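import Mathlib

namespace Pool.Agent.Results.MP_1fb722_al.Omega

/-- `x ⪯ y` in `Γ` -/
def Le (Γ : AddSubmonoid ℕ) (x y : ℕ) : Prop := ∃ g ∈ Γ, y = x + g

/-- the positive integers `N` with the defining property of omega-primality -/
def Good (Γ : AddSubmonoid ℕ) (x : ℕ) : Set ℕ :=
  {N | 0 < N ∧ ∀ (r : ℕ) (a : Fin r → ℕ), (∀ i, a i ∈ Γ) → Le Γ x (∑ i, a i) →
    ∃ T : Finset (Fin r), T.card ≤ N ∧ Le Γ x (∑ i ∈ T, a i)}

noncomputable def omega (Γ : AddSubmonoid ℕ) (x : ℕ) : ℕ := sInf (Good Γ x)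

section
variable (n₁ n₂ n₃ : ℕ)

def D (x y : ℕ) : Prop := ∃ u v w, y = x + (u * n₁ + v * n₂ + w * n₃)

def P (x N : ℕ) : Prop :=
  ∀ A B C, D n₁ n₂ n₃ x (A * n₁ + B * n₂ + C * n₃) →
    ∃ a b c, a ≤ A ∧ b ≤ B ∧ c ≤ C ∧ a + b + c ≤ N ∧ D n₁ n₂ n₃ x (a * n₁ + b * n₂ + c * n₃)

lemma mem_iff (y : ℕ) :
    y ∈ AddSubmonoid.closure ({n₁, n₂, n₃} : Set ℕ) ↔ ∃ u v w, y = u * n₁ + v * n₂ + w * n₃ := by
  constructor
  · intro h
    induction h using AddSubmonoid.closure_induction with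
    | mem x hx =>
      rcases hx with rfl | rfl | rfl
      · exact ⟨1, 0, 0, by ring⟩
      · exact ⟨0, 1, 0, by ring⟩
      · exact ⟨0, 0, 1, by ring⟩
    | zero => exact ⟨0, 0, 0, by ring⟩
    | add x y _ _ hx hy =>
      obtain ⟨a, b, c, rfl⟩ := hx
      obtain ⟨d, e, f, rfl⟩ := hy
      exact ⟨a + d, b + e, c + f, by ring⟩
  · rintro ⟨u, v, w, rfl⟩
    have h : ∀ (k m : ℕ), m ∈ ({n₁, n₂, n₃} : Set ℕ) →
        k * m ∈ AddSubmonoid.closure ({n₁, n₂, n₃} : Set ℕ) := fun k m hm => by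
      simpa using nsmul_mem (AddSubmonoid.subset_closure hm) k
    exact add_mem (add_mem (h _ _ (by simp)) (h _ _ (by simp))) (h _ _ (by simp))

lemma le_iff (x y : ℕ) :
    Le (AddSubmonoid.closure ({n₁, n₂, n₃} : Set ℕ)) x y ↔ D n₁ n₂ n₃ x y := by
  constructor
  · rintro ⟨g, hg, rfl⟩
    obtain ⟨u, v, w, rfl⟩ := (mem_iff _ _ _ _).1 hg
    exact ⟨u, v, w, rfl⟩
  · rintro ⟨u, v, w, rfl⟩
    exact ⟨_, (mem_iff _ _ _ _).2 ⟨u, v, w, rfl⟩, rfl⟩

lemma cover {ι : Type} [DecidableEq ι] (s : Finset ι) (f : ι → ℕ) (v : ℕ) (h : v ≤ ∑ i ∈ s, f i) :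
    ∃ T ⊆ s, T.card ≤ v ∧ v ≤ ∑ i ∈ T, f i := by
  induction s using Finset.induction_on generalizing v with
  | empty => exact ⟨∅, by simp, by simp, h⟩
  | insert a s ha ih =>
    rw [Finset.sum_insert ha] at h
    by_cases h1 : v ≤ ∑ i ∈ s, f i
    · obtain ⟨T, hT, h2, h3⟩ := ih v h1
      exact ⟨T, hT.trans (Finset.subset_insert _ _), h2, h3⟩
    · obtain ⟨T, hT, h2, h3⟩ := ih (v - f a) (by omega)
      have haT : a ∉ T := fun h => ha (hT h)
      refine ⟨insert a T, Finset.insert_subset_insert _ hT, ?_, ?_⟩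
      · rw [Finset.card_insert_of_notMem haT]; omega
      · rw [Finset.sum_insert haT]; omega

lemma D_mono {x a b c A B C : ℕ} (h : D n₁ n₂ n₃ x (a * n₁ + b * n₂ + c * n₃))
    (ha : a ≤ A) (hb : b ≤ B) (hc : c ≤ C) : D n₁ n₂ n₃ x (A * n₁ + B * n₂ + C * n₃) := by
  obtain ⟨u, v, w, e⟩ := h
  obtain ⟨a', rfl⟩ := Nat.exists_eq_add_of_le ha
  obtain ⟨b', rfl⟩ := Nat.exists_eq_add_of_le hb
  obtain ⟨c', rfl⟩ := Nat.exists_eq_add_of_le hc
  exact ⟨u + a', v + b', w + c', by linear_combination e⟩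

lemma good_of_P {x N : ℕ} (hN : 0 < N) (h : P n₁ n₂ n₃ x N) :
    N ∈ Good (AddSubmonoid.closure ({n₁, n₂, n₃} : Set ℕ)) x := by
  refine ⟨hN, fun r a ha hx => ?_⟩
  choose u v w e using fun i => (mem_iff _ _ _ _).1 (ha i)
  have key : ∀ T : Finset (Fin r), ∑ i ∈ T, a i =
      (∑ i ∈ T, u i) * n₁ + (∑ i ∈ T, v i) * n₂ + (∑ i ∈ T, w i) * n₃ := fun T => by
    simp only [Finset.sum_mul, ← Finset.sum_add_distrib]
    exact Finset.sum_congr rfl fun i _ => e i
  rw [le_iff, key] at hx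
  obtain ⟨p, q, s, hp, hq, hs, hl, hD⟩ := h _ _ _ hx
  obtain ⟨T₁, -, c1, d1⟩ := cover _ u p hp
  obtain ⟨T₂, -, c2, d2⟩ := cover _ v q hq
  obtain ⟨T₃, -, c3, d3⟩ := cover _ w s hs
  refine ⟨T₁ ∪ T₂ ∪ T₃, ?_, ?_⟩
  · have := Finset.card_union_le (T₁ ∪ T₂) T₃
    have := Finset.card_union_le T₁ T₂
    omega
  · rw [le_iff, key]
    refine D_mono _ _ _ hD (d1.trans ?_) (d2.trans ?_) (d3.trans ?_) <;>
      refine Finset.sum_le_sum_of_subset fun i hi => ?_ <;> simp [hi]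

lemma P_of_good {x N : ℕ} (h : N ∈ Good (AddSubmonoid.closure ({n₁, n₂, n₃} : Set ℕ)) x) :
    P n₁ n₂ n₃ x N := by
  classical
  intro A B C hD
  let ι := Fin A ⊕ Fin B ⊕ Fin C
  let f : ι → ℕ := Sum.elim (fun _ => n₁) (Sum.elim (fun _ => n₂) fun _ => n₃)
  let e := Fintype.equivFin ι
  have key : ∀ T : Finset ι, ∑ i ∈ T, f i = T.toLeft.card * n₁ + T.toRight.toLeft.card * n₂
      + T.toRight.toRight.card * n₃ := fun T => by
    rw [Finset.sum_sum_eq_sum_toLeft_add_sum_toRight,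
      Finset.sum_sum_eq_sum_toLeft_add_sum_toRight T.toRight]
    simp [f, add_assoc]
  obtain ⟨T, hT, hx⟩ := h.2 _ (f ∘ e.symm) (fun i => by
    refine AddSubmonoid.subset_closure ?_
    rcases hi : e.symm i with j | j | j <;> simp [f, hi]) (by
    rw [le_iff, show ∑ i, (f ∘ e.symm) i = ∑ i, f i from Equiv.sum_comp e.symm f]
    simpa [f, ι, add_assoc] using hD)
  have h2 : ∑ i ∈ T, (f ∘ e.symm) i = ∑ i ∈ T.map e.symm.toEmbedding, f i := by
    rw [Finset.sum_map]; rfl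
  rw [le_iff, h2, key] at hx
  refine ⟨_, _, _, ?_, ?_, ?_, ?_, hx⟩
  · simpa using Finset.card_le_univ (T.map e.symm.toEmbedding).toLeft
  · simpa using Finset.card_le_univ (T.map e.symm.toEmbedding).toRight.toLeft
  · simpa using Finset.card_le_univ (T.map e.symm.toEmbedding).toRight.toRight
  · rw [add_assoc, Finset.card_toLeft_add_card_toRight, Finset.card_toLeft_add_card_toRight,
      Finset.card_map]
    exact hT

lemma bullet {x N : ℕ} (h : ¬ P n₁ n₂ n₃ x N) :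
    ∃ A B C, N < A + B + C ∧ D n₁ n₂ n₃ x (A * n₁ + B * n₂ + C * n₃) ∧
      ∀ a b c, a ≤ A → b ≤ B → c ≤ C → a + b + c < A + B + C →
        ¬ D n₁ n₂ n₃ x (a * n₁ + b * n₂ + c * n₃) := by
  by_contra hh
  apply h
  have : ∀ k A B C, A + B + C = k → D n₁ n₂ n₃ x (A * n₁ + B * n₂ + C * n₃) →
      ∃ a b c, a ≤ A ∧ b ≤ B ∧ c ≤ C ∧ a + b + c ≤ N ∧
        D n₁ n₂ n₃ x (a * n₁ + b * n₂ + c * n₃) := by
    intro k
    induction k using Nat.strong_induction_on with
    | _ k ih =>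
      intro A B C hk hD
      by_cases h1 : A + B + C ≤ N
      · exact ⟨A, B, C, le_rfl, le_rfl, le_rfl, h1, hD⟩
      · push Not at hh
        obtain ⟨a, b, c, ha, hb, hc, hl, hd⟩ := hh A B C (by omega) hD
        obtain ⟨a', b', c', ha', hb', hc', hl', hd'⟩ := ih _ (hk ▸ hl) a b c rfl hd
        exact ⟨a', b', c', ha'.trans ha, hb'.trans hb, hc'.trans hc, hl', hd'⟩
  exact fun A B C => this _ A B C rfl

end

lemma le_of_cop {a b s t : ℕ} (h : Nat.Coprime a b) (e : s * b = t * a) (hs : 0 < s) : a ≤ s :=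
  Nat.le_of_dvd hs (h.dvd_of_dvd_mul_right ⟨t, by rw [e, mul_comm]⟩)

lemma stepK {n d a b w : ℕ} (hn : 0 < n) (h1 : n < d * a) (h2 : a < b) (hab : Nat.Coprime a b)
    (hw : 0 < w) (h3 : P n (d * a) (d * b) (d * b) w) (h : ¬ P n (d * a) (d * b) n w) :
    ¬ D n (d * a) (d * b) n (d * a * b) := by
  have hd : 0 < d := Nat.pos_of_ne_zero (by rintro rfl; simp at h1)
  have ha : 0 < a := Nat.pos_of_ne_zero (by rintro rfl; simp at h1)
  have h1' : d * a < d * b := Nat.mul_lt_mul_of_pos_left h2 hd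
  obtain ⟨A, B, C, hl, ⟨x, y, z, e⟩, hmin⟩ := bullet _ _ _ h
  have hA : A = 0 := by
    by_contra hA
    exact hmin 1 0 0 (by omega) (by omega) (by omega) (by omega) ⟨0, 0, 0, by ring⟩
  subst hA
  have hB : ∀ x y z, B * (d * a) + C * (d * b) = n + (x * n + y * (d * a) + z * (d * b)) →
      B = 0 ∨ y = 0 := fun x y z e => by
    by_contra hh
    push Not at hh
    obtain ⟨B, rfl⟩ := Nat.exists_eq_succ_of_ne_zero hh.1
    obtain ⟨y, rfl⟩ := Nat.exists_eq_succ_of_ne_zero hh.2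
    exact hmin 0 B C le_rfl (by omega) le_rfl (by omega)
      ⟨x, y, z, by simp only [Nat.succ_eq_add_one] at e; linarith⟩
  have hC : ∀ x y z, B * (d * a) + C * (d * b) = n + (x * n + y * (d * a) + z * (d * b)) →
      C = 0 ∨ z = 0 := fun x y z e => by
    by_contra hh
    push Not at hh
    obtain ⟨C, rfl⟩ := Nat.exists_eq_succ_of_ne_zero hh.1
    obtain ⟨z, rfl⟩ := Nat.exists_eq_succ_of_ne_zero hh.2
    exact hmin 0 B C le_rfl le_rfl (by omega) (by omega)
      ⟨x, y, z, by simp only [Nat.succ_eq_add_one] at e; linarith⟩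
  have e' : B * (d * a) + C * (d * b) = n + (x * n + y * (d * a) + z * (d * b)) := by linarith
  by_cases hC0 : C = 0
  · subst hC0
    obtain ⟨a', rfl⟩ := Nat.exists_eq_add_of_lt ha
    obtain ⟨p, q, r, hp, hq, hr, hs, u, v, t, e2⟩ := h3 0 b 0 ⟨0, 0, a', by ring⟩
    obtain rfl : p = 0 := by omega
    obtain rfl : r = 0 := by omega
    have hu : u = 0 := by
      by_contra hu
      obtain ⟨u, rfl⟩ := Nat.exists_eq_succ_of_ne_zero hu
      exact hmin 0 q 0 le_rfl (by omega) le_rfl (by omega)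
        ⟨u, v, t + 1, by simp only [Nat.succ_eq_add_one] at e2; linarith⟩
    subst hu
    have hv : v < q := by
      by_contra hv
      have := Nat.mul_le_mul_right (d * (0 + a' + 1)) (not_lt.1 hv)
      nlinarith
    obtain ⟨k, rfl⟩ := Nat.exists_eq_add_of_lt hv
    have : b ≤ k + 1 := le_of_cop hab.symm (t := t + 1)
      (Nat.eq_of_mul_eq_mul_left hd (by linarith)) (by omega)
    intro hD
    exact hmin 0 b 0 le_rfl (by omega) le_rfl (by omega) (by convert hD using 1; ring)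
  · have hz := (hC x y z e').resolve_left hC0
    subst hz
    obtain ⟨C, rfl⟩ := Nat.exists_eq_succ_of_ne_zero hC0
    simp only [Nat.succ_eq_add_one] at *
    by_cases hB0 : B = 0
    · subst hB0
      have hxy : C + 1 < x + 1 + y := by
        by_contra hh
        have h4 : (x + 1 + y) * (d * b) ≤ (C + 1) * (d * b) :=
          Nat.mul_le_mul_right _ (not_lt.1 hh)
        have h5 : y * (d * a) ≤ y * (d * b) := Nat.mul_le_mul_left _ h1'.le
        have h6 : (x + 1) * n < (x + 1) * (d * b) :=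
          Nat.mul_lt_mul_of_pos_left (h1.trans h1') (by omega)
        nlinarith
      obtain ⟨p, q, r, hp, hq, hr, hs, u, v, t, e2⟩ := h3 (x + 1) y 0 ⟨0, 0, C, by linarith⟩
      obtain rfl : r = 0 := by omega
      obtain ⟨p', hp'⟩ := Nat.exists_eq_add_of_le hp
      obtain ⟨q', rfl⟩ := Nat.exists_eq_add_of_le hq
      have e3 : C * (d * b) = (p' + u) * n + (q' + v) * (d * a) + t * (d * b) := by
        have : (x + 1) * n = (p + p') * n := by rw [hp']
        linarith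
      have hu : p' + u = 0 := by
        by_contra hu
        obtain ⟨k, hk⟩ := Nat.exists_eq_succ_of_ne_zero hu
        rw [hk] at e3
        exact hmin 0 0 C le_rfl le_rfl (by omega) (by omega)
          ⟨k, q' + v, t, by simp only [Nat.succ_eq_add_one] at e3; linarith⟩
      rw [hu] at e3
      have hq' : 0 < q' + v := by omega
      have ht : t < C := by
        by_contra ht
        have := Nat.mul_le_mul_right (d * b) (not_lt.1 ht)
        have := Nat.mul_pos hq' (Nat.mul_pos hd ha)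
        linarith
      obtain ⟨k, rfl⟩ := Nat.exists_eq_add_of_lt ht
      have : a ≤ k + 1 := le_of_cop hab (t := q' + v)
        (Nat.eq_of_mul_eq_mul_left hd (by linarith)) (by omega)
      intro hD
      exact hmin 0 0 a le_rfl le_rfl (by omega) (by omega) (by convert hD using 1; ring)
    · exfalso
      have hy := (hB x y 0 e').resolve_left hB0
      subst hy
      have hx : B + (C + 1) < x + 1 := by
        by_contra hh
        have h4 : (x + 1) * n ≤ (B + (C + 1)) * n := Nat.mul_le_mul_right _ (not_lt.1 hh)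
        have h5 : B * n ≤ B * (d * a) := Nat.mul_le_mul_left _ h1.le
        have h6 : (C + 1) * n < (C + 1) * (d * b) :=
          Nat.mul_lt_mul_of_pos_left (h1.trans h1') (by omega)
        nlinarith
      obtain ⟨n', rfl⟩ := Nat.exists_eq_add_of_lt hn
      obtain ⟨p, q, r, hp, hq, hr, hs, u, v, t, e2⟩ := h3 (d * b) 0 0 ⟨0, 0, n', by ring⟩
      obtain rfl : r = 0 := by omega
      obtain rfl : q = 0 := by omega
      obtain ⟨k, rfl⟩ := Nat.exists_eq_add_of_le (show p ≤ x by omega)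
      exact hmin 0 B C le_rfl le_rfl (by omega) (by omega) ⟨k + u, v, t, by linarith⟩

lemma stepP {n d a b w : ℕ} (hn : 0 < n) (h1 : n < d * a) (h2 : a < b) (hab : Nat.Coprime a b)
    (hdn : Nat.Coprime d n) (hw : 0 < w) (h3 : P n (d * a) (d * b) (d * b) w)
    (hK : ¬ D n (d * a) (d * b) n (d * a * b)) : P n (d * a) (d * b) (d * a) w := by
  have hd : 0 < d := Nat.pos_of_ne_zero (by rintro rfl; simp at h1)
  have ha : 0 < a := Nat.pos_of_ne_zero (by rintro rfl; simp at h1)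
  have hbw : b ≤ w := by
    obtain ⟨a', rfl⟩ := Nat.exists_eq_add_of_lt ha
    obtain ⟨p, q, r, hp, hq, hr, hs, u, v, t, e2⟩ := h3 0 b 0 ⟨0, 0, a', by ring⟩
    obtain rfl : p = 0 := by omega
    obtain rfl : r = 0 := by omega
    have hu : u = 0 := by
      by_contra hu
      obtain ⟨u, rfl⟩ := Nat.exists_eq_succ_of_ne_zero hu
      obtain ⟨k, rfl⟩ := Nat.exists_eq_add_of_le hq
      exact hK ⟨u, v + k, t + 1, by simp only [Nat.succ_eq_add_one] at e2; linarith⟩
    subst hu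
    have hv : v < q := by
      by_contra hv
      have := Nat.mul_le_mul_right (d * (0 + a' + 1)) (not_lt.1 hv)
      have := Nat.mul_pos hd (ha.trans h2)
      nlinarith
    obtain ⟨k, rfl⟩ := Nat.exists_eq_add_of_lt hv
    have : b ≤ k + 1 := le_of_cop hab.symm (t := t + 1)
      (Nat.eq_of_mul_eq_mul_left hd (by linarith)) (by omega)
    omega
  have hdw : d ≤ w := by
    obtain ⟨n', rfl⟩ := Nat.exists_eq_add_of_lt hn
    obtain ⟨p, q, r, hp, hq, hr, hs, u, v, t, e2⟩ := h3 (d * b) 0 0 ⟨0, 0, n', by ring⟩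
    obtain rfl : r = 0 := by omega
    obtain rfl : q = 0 := by omega
    have hu : u < p := by
      by_contra hu
      have := Nat.mul_le_mul_right (0 + n' + 1) (not_lt.1 hu)
      have := Nat.mul_pos hd (ha.trans h2)
      nlinarith
    obtain ⟨k, rfl⟩ := Nat.exists_eq_add_of_lt hu
    have : d ≤ k + 1 := le_of_cop hdn (t := b + v * a + t * b) (by linarith) (by omega)
    omega
  obtain ⟨α, β, hn'⟩ : ∃ α β, n = (α + 1) * a + β * b := by
    obtain ⟨β, hβ, hm⟩ : ∃ β < a, β * b ≡ n [MOD a] := by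
      obtain ⟨m, hm⟩ := Nat.exists_mul_mod_eq_of_coprime n hab.symm ha.ne'
      exact ⟨m, hm.1, by rw [mul_comm]; exact hm.2⟩
    by_cases hc : n ≤ β * b
    · exfalso
      obtain ⟨t, ht⟩ := (Nat.modEq_iff_exists_eq_add hc).1 hm.symm
      obtain ⟨k, rfl⟩ := Nat.exists_eq_add_of_lt hβ
      obtain ⟨d', rfl⟩ := Nat.exists_eq_add_of_lt hd
      exact hK ⟨d', t, k + 1, by linear_combination (d' + 1) * ht⟩
    · obtain ⟨t, ht⟩ := (Nat.modEq_iff_exists_eq_add (not_le.1 hc).le).1 hm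
      obtain ⟨t, rfl⟩ := Nat.exists_eq_succ_of_ne_zero (show t ≠ 0 by rintro rfl; omega)
      exact ⟨t, β, by rw [ht]; simp only [Nat.succ_eq_add_one]; ring⟩
  intro A B C ⟨x, y, z, e⟩
  by_cases hB : 1 ≤ B
  · exact ⟨0, 1, 0, by omega, hB, by omega, by omega, 0, 0, 0, by ring⟩
  by_cases hA : d ≤ A
  · exact ⟨d, 0, 0, hA, by omega, by omega, by omega, 0, α, β, by rw [hn']; ring⟩
  by_cases hC : a ≤ C
  · obtain ⟨k, rfl⟩ := Nat.exists_eq_add_of_lt h2
    exact ⟨0, 0, a, by omega, by omega, hC, by omega, 0, a + k, 0, by ring⟩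
  exfalso
  obtain rfl : B = 0 := by omega
  have hm : A ≡ x [MOD d] := by
    refine Nat.ModEq.cancel_right_of_coprime (c := n) hdn ?_
    have h4 : A * n + d * (C * b) = x * n + d * (a + y * a + z * b) := by linarith
    have h5 : (A * n + d * (C * b)) % d = (x * n + d * (a + y * a + z * b)) % d := by rw [h4]
    simpa [Nat.ModEq, Nat.add_mul_mod_self_left] using h5
  have hAx : A ≤ x := by
    have := hm
    rw [Nat.ModEq, Nat.mod_eq_of_lt (not_le.1 hA)] at this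
    exact this ▸ Nat.mod_le _ _
  obtain ⟨q, rfl⟩ := (Nat.modEq_iff_exists_eq_add hAx).1 hm
  have e2 : C * b = (q * (α + 1) + y + 1) * a + (q * β + z) * b :=
    Nat.eq_of_mul_eq_mul_left hd (by rw [hn'] at e; linarith)
  have hlt : q * β + z < C := by
    by_contra hh
    have := Nat.mul_le_mul_right b (not_lt.1 hh)
    have := Nat.mul_pos (show 0 < q * (α + 1) + y + 1 by omega) ha
    linarith
  obtain ⟨k, rfl⟩ := Nat.exists_eq_add_of_lt hlt
  have : a ≤ k + 1 := le_of_cop hab (t := q * (α + 1) + y + 1) (by linarith) (by omega)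
  omega

theorem result (Γ : AddSubmonoid ℕ) (hfin : (Γ : Set ℕ)ᶜ.Finite) (n₁ n₂ n₃ : ℕ)
    (h12 : n₁ < n₂) (h23 : n₂ < n₃) (hgen : AddSubmonoid.closure {n₁, n₂, n₃} = Γ)
    (hmin : ∀ S : Set ℕ, S ⊂ {n₁, n₂, n₃} → AddSubmonoid.closure S ≠ Γ) :
    (∀ x, (Good Γ x).Nonempty) ∧
    ¬ (omega Γ n₁ > omega Γ n₂ ∧ omega Γ n₂ > omega Γ n₃) ∧
    ¬ (omega Γ n₁ = omega Γ n₂ ∧ omega Γ n₂ > omega Γ n₃) ∧
    ¬ (omega Γ n₃ < omega Γ n₁ ∧ omega Γ n₁ < omega Γ n₂) := by
  have hn : 0 < n₁ := by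
    rcases Nat.eq_zero_or_pos n₁ with rfl | h
    · exfalso
      refine hmin {n₂, n₃} ⟨Set.subset_insert _ _, fun h => ?_⟩ ?_
      · have := h (Set.mem_insert 0 _)
        simp only [Set.mem_insert_iff, Set.mem_singleton_iff] at this
        omega
      · rw [← hgen, AddSubmonoid.closure_insert_zero]
    · exact h
  subst hgen
  obtain ⟨F, hF⟩ := hfin.bddAbove
  have hbig : ∀ y, F < y → ∃ u v w, y = u * n₁ + v * n₂ + w * n₃ := fun y hy => by
    rw [← mem_iff]
    by_contra h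
    exact absurd (hF h) (by omega)
  have hne : ∀ x, (Good (AddSubmonoid.closure ({n₁, n₂, n₃} : Set ℕ)) x).Nonempty := fun x => by
    refine ⟨F + x + 1, good_of_P _ _ _ (by omega) fun A B C hD => ?_⟩
    by_cases h : A + B + C ≤ F + x + 1
    · exact ⟨A, B, C, le_rfl, le_rfl, le_rfl, h, hD⟩
    · obtain ⟨a, b, c, ha, hb, hc, hs⟩ : ∃ a b c, a ≤ A ∧ b ≤ B ∧ c ≤ C ∧ a + b + c = F + x + 1 :=
        ⟨min A (F + x + 1), min B (F + x + 1 - A), F + x + 1 - A - B, by omega, by omega, by omega,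
          by omega⟩
      refine ⟨a, b, c, ha, hb, hc, hs.le, ?_⟩
      have h1 : a ≤ a * n₁ := Nat.le_mul_of_pos_right _ hn
      have h2 : b ≤ b * n₂ := Nat.le_mul_of_pos_right _ (by omega)
      have h3 : c ≤ c * n₃ := Nat.le_mul_of_pos_right _ (by omega)
      obtain ⟨u, v, w, e⟩ := hbig (a * n₁ + b * n₂ + c * n₃ - x) (by omega)
      exact ⟨u, v, w, by omega⟩
  refine ⟨hne, ?_⟩
  have hw := Nat.sInf_mem (hne n₃)
  have h3 := P_of_good _ _ _ hw
  obtain ⟨a, b, hab, ha, hb⟩ := Nat.exists_coprime n₂ n₃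
  set d := Nat.gcd n₂ n₃ with hd
  rw [mul_comm] at ha hb
  have hdn : Nat.Coprime d n₁ := by
    obtain ⟨u, v, w, e⟩ := hbig (F + 1) (by omega)
    obtain ⟨u', v', w', e'⟩ := hbig (F + 2) (by omega)
    have hg : ∀ u v w, Nat.gcd d n₁ ∣ u * n₁ + v * n₂ + w * n₃ := fun u v w =>
      dvd_add (dvd_add (Dvd.dvd.mul_left (Nat.gcd_dvd_right _ _) _)
        (Dvd.dvd.mul_left ((Nat.gcd_dvd_left _ _).trans (Nat.gcd_dvd_left _ _)) _))
        (Dvd.dvd.mul_left ((Nat.gcd_dvd_left _ _).trans (Nat.gcd_dvd_right _ _)) _)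
    have g1 := hg u v w
    have g2 := hg u' v' w'
    rw [← e] at g1
    rw [← e'] at g2
    exact Nat.eq_one_of_dvd_one ((Nat.dvd_add_right g1).1 g2)
  have hlt : a < b := by
    rw [ha, hb] at h23
    exact lt_of_mul_lt_mul_left h23 (Nat.zero_le _)
  clear_value d
  subst ha hb
  have main : omega (AddSubmonoid.closure {n₁, d * a, d * b}) n₁ ≤
        omega (AddSubmonoid.closure {n₁, d * a, d * b}) (d * b) ∨
      omega (AddSubmonoid.closure {n₁, d * a, d * b}) (d * a) ≤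
        omega (AddSubmonoid.closure {n₁, d * a, d * b}) (d * b) := by
    by_cases h : P n₁ (d * a) (d * b) n₁ (sInf (Good (AddSubmonoid.closure {n₁, d * a, d * b}) (d * b)))
    · exact Or.inl (Nat.sInf_le (good_of_P _ _ _ hw.1 h))
    · exact Or.inr (Nat.sInf_le (good_of_P _ _ _ hw.1
        (stepP hn h12 hlt hab hdn hw.1 h3 (stepK hn h12 hlt hab hw.1 h3 h))))
  omega

end Pool.Agent.Results.MP_1fb722_al.Omega
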